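import Mathlib

open Topology Filter

namespace Pool.Agent.Results.MP_c09033_al.NotSemitop

/-- A homomorphism `f : G → H` of topological groups is semitopological if it is continuous and
surjective and there are a topological group `W` containing `G` as a normal topological subgroup
(via `ι`) and an open continuous homomorphism `F : W → H` extending `f`. -/
def IsSemitopological.{u, v, w} {G : Type v} {H : Type w} [Group G] [TopologicalSpace G]
    [Group H] [TopologicalSpace H] (f : G →* H) : Prop :=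
  Continuous f ∧ Function.Surjective f ∧
    ∃ (W : Type u) (_ : Group W) (_ : TopologicalSpace W) (_ : IsTopologicalGroup W)
      (ι : G →* W) (F : W →* H),
      Function.Injective ι ∧ ι.range.Normal ∧ IsInducing ι ∧ Continuous F ∧ IsOpenMap F ∧
        ∀ g, F (ι g) = f g

/-- The group `(Z/2)^ℕ`, written multiplicatively. -/
abbrev N : Type := ℕ → ℤˣ

/-- The transvection `n ↦ n * (n j at coordinate i)` for `i ≠ j` (the identity if `i = j`). -/
def E (i j : ℕ) : MulAut N where
  toFun n := if i = j then n else n * Pi.mulSingle i (n j)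
  invFun n := if i = j then n else n * Pi.mulSingle i (n j)
  left_inv n := by
    by_cases h : i = j
    · simp [h]
    · simp only [h, if_false, Pi.mul_apply]
      rw [Pi.mulSingle_eq_of_ne (Ne.symm h), mul_one, mul_assoc, ← Pi.mulSingle_mul]
      simp [Int.units_mul_self]
  right_inv n := by
    by_cases h : i = j
    · simp [h]
    · simp only [h, if_false, Pi.mul_apply]
      rw [Pi.mulSingle_eq_of_ne (Ne.symm h), mul_one, mul_assoc, ← Pi.mulSingle_mul]
      simp [Int.units_mul_self]
  map_mul' m n := by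
    by_cases h : i = j
    · simp [h]
    · simp only [h, if_false, Pi.mul_apply, Pi.mulSingle_mul]
      exact mul_mul_mul_comm _ _ _ _

lemma E_apply {i j : ℕ} (h : i ≠ j) (n : N) : E i j n = n * Pi.mulSingle i (n j) := by
  change (if i = j then n else n * Pi.mulSingle i (n j)) = _
  rw [if_neg h]

/-- The group generated by the transvections. -/
def K : Subgroup (MulAut N) := Subgroup.closure {e | ∃ i j, e = E i j}

/-- The transvection as an element of `K`. -/
def e (i j : ℕ) : K := ⟨E i j, Subgroup.subset_closure ⟨i, j, rfl⟩⟩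

lemma E_comm {i j a b : ℕ} (h2 : i ≠ b) (h3 : j ≠ a) :
    E i j * E a b = E a b * E i j := by
  by_cases hij : i = j
  · have : E i j = 1 := by
      ext n k
      change ((if i = j then n else n * Pi.mulSingle i (n j)) k : ℤ) = _
      rw [if_pos hij]
      rfl
    rw [this, one_mul, mul_one]
  by_cases hab : a = b
  · have : E a b = 1 := by
      ext n k
      change ((if a = b then n else n * Pi.mulSingle a (n b)) k : ℤ) = _
      rw [if_pos hab]
      rfl
    rw [this, one_mul, mul_one]
  apply MulEquiv.ext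
  intro n
  rw [MulAut.mul_apply, MulAut.mul_apply, E_apply hab, E_apply hij, E_apply hij, E_apply hab]
  simp only [Pi.mul_apply]
  rw [Pi.mulSingle_eq_of_ne h3, Pi.mulSingle_eq_of_ne (Ne.symm h2), mul_one, mul_one]
  exact mul_right_comm _ _ _

lemma exists_bound (k : K) : ∃ M : ℕ, ∀ i j, M ≤ i → M ≤ j → e i j * k = k * e i j := by
  obtain ⟨k, hk⟩ := k
  induction hk using Subgroup.closure_induction with
  | mem x hx =>
    obtain ⟨a, b, rfl⟩ := hx
    refine ⟨max a b + 1, fun i j hi hj => Subtype.ext ?_⟩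
    exact E_comm (by omega) (by omega)
  | one => exact ⟨0, fun i j _ _ => Subtype.ext (by simp [e])⟩
  | mul x y hx hy ihx ihy =>
    obtain ⟨M₁, h₁⟩ := ihx
    obtain ⟨M₂, h₂⟩ := ihy
    refine ⟨max M₁ M₂, fun i j hi hj => ?_⟩
    have e1 := h₁ i j (by omega) (by omega)
    have e2 := h₂ i j (by omega) (by omega)
    have : (⟨x * y, mul_mem hx hy⟩ : K) = ⟨x, hx⟩ * ⟨y, hy⟩ := rfl
    rw [this, ← mul_assoc, e1, mul_assoc, e2, mul_assoc]
  | inv x hx ihx =>
    obtain ⟨M₁, h₁⟩ := ihx
    refine ⟨M₁, fun i j hi hj => ?_⟩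
    have e1 := h₁ i j hi hj
    have : (⟨x⁻¹, inv_mem hx⟩ : K) = (⟨x, hx⟩ : K)⁻¹ := rfl
    rw [this, eq_inv_mul_iff_mul_eq, ← mul_assoc, ← e1, mul_assoc, mul_inv_cancel, mul_one]

/-- The filter basis of the centralizer topology on a group. -/
def centBasis (K : Type) [Group K] : GroupFilterBasis K where
  sets := {U | ∃ F : Set K, F.Finite ∧ U = {x | ∀ f ∈ F, x * f = f * x}}
  nonempty := ⟨_, ∅, Set.finite_empty, rfl⟩
  inter_sets := by
    rintro _ _ ⟨F, hF, rfl⟩ ⟨F', hF', rfl⟩
    refine ⟨_, ⟨F ∪ F', hF.union hF', rfl⟩, fun x hx => ⟨fun f hf => hx f (Or.inl hf),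
      fun f hf => hx f (Or.inr hf)⟩⟩
  one' := by
    rintro _ ⟨F, hF, rfl⟩ f _
    rw [one_mul, mul_one]
  mul' := by
    rintro _ ⟨F, hF, rfl⟩
    refine ⟨_, ⟨F, hF, rfl⟩, ?_⟩
    rintro _ ⟨x, hx, y, hy, rfl⟩ f hf
    change x * y * f = f * (x * y)
    rw [mul_assoc, hy f hf, ← mul_assoc, hx f hf, mul_assoc]
  inv' := by
    rintro _ ⟨F, hF, rfl⟩
    refine ⟨_, ⟨F, hF, rfl⟩, ?_⟩
    intro x hx f hf
    change x⁻¹ * f = f * x⁻¹
    rw [inv_mul_eq_iff_eq_mul, ← mul_assoc, hx f hf, mul_assoc, mul_inv_cancel, mul_one]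
  conj' := by
    rintro a _ ⟨F, hF, rfl⟩
    refine ⟨_, ⟨(fun f => a⁻¹ * f * a) '' F, hF.image _, rfl⟩, ?_⟩
    intro x hx f hf
    have h := hx _ ⟨f, hf, rfl⟩
    change a * x * a⁻¹ * f = f * (a * x * a⁻¹)
    have h2 : x * (a⁻¹ * f * a) = a⁻¹ * f * a * x := h
    calc a * x * a⁻¹ * f = a * (x * (a⁻¹ * f * a)) * a⁻¹ := by group
      _ = a * (a⁻¹ * f * a * x) * a⁻¹ := by rw [h2]
      _ = f * (a * x * a⁻¹) := by group

/-- The filter basis on `K × K` of the diagonal copies of the basic sets of `centBasis`. -/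
def diagBasis (K : Type) [Group K] : GroupFilterBasis (K × K) where
  sets := {U | ∃ F : Set K, F.Finite ∧ U = {p | p.2 = p.1 ∧ ∀ f ∈ F, p.1 * f = f * p.1}}
  nonempty := ⟨_, ∅, Set.finite_empty, rfl⟩
  inter_sets := by
    rintro _ _ ⟨F, hF, rfl⟩ ⟨F', hF', rfl⟩
    refine ⟨_, ⟨F ∪ F', hF.union hF', rfl⟩, fun x hx => ⟨⟨hx.1, fun f hf => hx.2 f (Or.inl hf)⟩,
      ⟨hx.1, fun f hf => hx.2 f (Or.inr hf)⟩⟩⟩
  one' := by
    rintro _ ⟨F, hF, rfl⟩
    refine ⟨rfl, fun f _ => ?_⟩
    change 1 * f = f * 1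
    rw [one_mul, mul_one]
  mul' := by
    rintro _ ⟨F, hF, rfl⟩
    refine ⟨_, ⟨F, hF, rfl⟩, ?_⟩
    rintro _ ⟨x, hx, y, hy, rfl⟩
    refine ⟨?_, fun f hf => ?_⟩
    · change x.2 * y.2 = x.1 * y.1
      rw [hx.1, hy.1]
    · change x.1 * y.1 * f = f * (x.1 * y.1)
      rw [mul_assoc, hy.2 f hf, ← mul_assoc, hx.2 f hf, mul_assoc]
  inv' := by
    rintro _ ⟨F, hF, rfl⟩
    refine ⟨_, ⟨F, hF, rfl⟩, ?_⟩
    intro x hx
    refine ⟨?_, fun f hf => ?_⟩
    · change x.2⁻¹ = x.1⁻¹
      rw [hx.1]
    · change x.1⁻¹ * f = f * x.1⁻¹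
      rw [inv_mul_eq_iff_eq_mul, ← mul_assoc, hx.2 f hf, mul_assoc, mul_inv_cancel, mul_one]
  conj' := by
    rintro a _ ⟨F, hF, rfl⟩
    refine ⟨_, ⟨(fun f => a.1⁻¹ * f * a.1) '' F ∪ {a.1⁻¹ * a.2}, (hF.image _).union
      (Set.finite_singleton _), rfl⟩, ?_⟩
    intro x hx
    refine ⟨?_, fun f hf => ?_⟩
    · change a.2 * x.2 * a.2⁻¹ = a.1 * x.1 * a.1⁻¹
      have h : x.1 * (a.1⁻¹ * a.2) = a.1⁻¹ * a.2 * x.1 := hx.2 _ (Or.inr rfl)
      rw [hx.1]
      calc a.2 * x.1 * a.2⁻¹ = a.1 * (a.1⁻¹ * a.2 * x.1) * a.2⁻¹ := by group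
        _ = a.1 * (x.1 * (a.1⁻¹ * a.2)) * a.2⁻¹ := by rw [h]
        _ = a.1 * x.1 * a.1⁻¹ := by group
    · have h := hx.2 _ (Or.inl ⟨f, hf, rfl⟩)
      change a.1 * x.1 * a.1⁻¹ * f = f * (a.1 * x.1 * a.1⁻¹)
      have h2 : x.1 * (a.1⁻¹ * f * a.1) = a.1⁻¹ * f * a.1 * x.1 := h
      calc a.1 * x.1 * a.1⁻¹ * f = a.1 * (x.1 * (a.1⁻¹ * f * a.1)) * a.1⁻¹ := by group
        _ = a.1 * (a.1⁻¹ * f * a.1 * x.1) * a.1⁻¹ := by rw [h2]
        _ = f * (a.1 * x.1 * a.1⁻¹) := by group

lemma inducing_of_discrete {K W : Type*} [Group K] [Group W] [TopologicalSpace W]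
    [IsTopologicalGroup W] (ι : K →* W) {U : Set W} (hU : U ∈ 𝓝 (1 : W))
    (h : ∀ k, ι k ∈ U → k = 1) : @IsInducing K W ⊥ _ ι := by
  let t : TopologicalSpace K := TopologicalSpace.induced ι inferInstance
  have hg : IsTopologicalGroup K := topologicalGroup_induced ι
  have h1 : ({1} : Set K) ∈ 𝓝 (1 : K) := by
    rw [nhds_induced, map_one]
    exact ⟨U, hU, fun k hk => h k hk⟩
  have h2 : IsOpen ({1} : Set K) := by
    rw [isOpen_iff_mem_nhds]
    intro x hx
    rw [Set.mem_singleton_iff.mp hx]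
    exact h1
  have h3 : DiscreteTopology K := discreteTopology_of_isOpen_singleton_one h2
  exact @IsInducing.mk K W ⊥ _ ι h3.eq_bot.symm

/-- The identity from a discrete group to the same group with the centralizer topology is a
semitopological isomorphism. -/
theorem id_semitopological (K : Type) [Group K] :
    @IsSemitopological.{0, 0, 0} K K _ ⊥ _ (centBasis K).topology (MonoidHom.id K) := by
  let tW : TopologicalSpace (K × K) := (diagBasis K).topology
  have hW : IsTopologicalGroup (K × K) := (diagBasis K).isTopologicalGroup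
  let tH : TopologicalSpace K := (centBasis K).topology
  have hH : IsTopologicalGroup K := (centBasis K).isTopologicalGroup
  refine ⟨continuous_bot, Function.surjective_id, ?_⟩
  refine ⟨K × K, inferInstance, tW, hW, MonoidHom.inl K K, MonoidHom.fst K K, ?_, ?_, ?_, ?_, ?_,
    fun g => rfl⟩
  · intro a b h
    exact congrArg Prod.fst h
  · refine ⟨?_⟩
    rintro _ ⟨k, rfl⟩ ⟨a, b⟩
    exact ⟨a * k * a⁻¹, by ext <;> simp⟩
  · refine inducing_of_discrete _ ((diagBasis K).mem_nhds_one ⟨∅, Set.finite_empty, rfl⟩) ?_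
    intro k hk
    exact hk.1.symm
  · refine continuous_of_continuousAt_one _ ?_
    unfold ContinuousAt
    rw [map_one]
    refine ((diagBasis K).nhds_one_hasBasis.tendsto_iff (centBasis K).nhds_one_hasBasis).mpr ?_
    rintro _ ⟨F, hF, rfl⟩
    exact ⟨_, ⟨F, hF, rfl⟩, fun p hp => hp.2⟩
  · rw [IsTopologicalGroup.isOpenMap_iff_nhds_one]
    rw [((diagBasis K).nhds_one_hasBasis.map _).ge_iff]
    rintro _ ⟨F, hF, rfl⟩
    refine Filter.mem_of_superset ((centBasis K).mem_nhds_one ⟨F, hF, rfl⟩) ?_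
    intro x hx
    exact ⟨(x, x), ⟨rfl, hx⟩, rfl⟩

/-- The all-`(-1)` vector. -/
def n₀ : N := fun _ => -1

/-- An injective endomorphism of `N` commuting with all transvections is the identity. -/
lemma eq_id (γ : N → N) (hmul : ∀ a b, γ (a * b) = γ a * γ b) (hinj : Function.Injective γ)
    (hcomm : ∀ i j, ∀ n, γ (E i j n) = E i j (γ n)) (n : N) : γ n = n := by
  have hone : γ 1 = 1 := by
    have := hmul 1 1
    rw [mul_one] at this
    exact (mul_eq_left.mp this.symm)
  have key : ∀ i j, i ≠ j → γ (Pi.mulSingle i (n j)) = Pi.mulSingle i (γ n j) := by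
    intro i j hij
    have h := hcomm i j n
    rw [E_apply hij, E_apply hij, hmul] at h
    exact mul_left_cancel h
  funext j
  obtain ⟨i, hij⟩ : ∃ i, i ≠ j := ⟨j + 1, by omega⟩
  have h := key i j hij
  rcases Int.units_eq_one_or (n j) with h1 | h1
  · rw [h1, Pi.mulSingle_one, hone] at h
    have h2 := congrFun h i
    rw [Pi.mulSingle_eq_same] at h2
    rw [h1, ← h2]
    rfl
  · rcases Int.units_eq_one_or (γ n j) with h2 | h2
    · rw [h1, h2, Pi.mulSingle_one, ← hone] at h
      have h3 := congrFun (hinj h) i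
      rw [Pi.mulSingle_eq_same] at h3
      have h4 : (-1 : ℤˣ) ≠ 1 := by decide
      exact absurd h3 h4
    · rw [h1, h2]

/-- The discrete group `G = N ⋊ K`. -/
abbrev G : Type := N ⋊[K.subtype] K

open SemidirectProduct

lemma discrete_group (G : Type) [Group G] : @IsTopologicalGroup G ⊥ _ := by
  let t : TopologicalSpace G := ⊥
  have : DiscreteTopology G := ⟨rfl⟩
  infer_instance

/-- **Main result.** There are topological groups `G`, `K`, `H`, an open continuous surjective
homomorphism `f₁ : G → K` and a semitopological isomorphism `f₂ : K → H` such that the composition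
`f₂ ∘ f₁` is not semitopological. -/
theorem result.{u} : ∃ (G K H : Type) (_ : Group G) (_ : TopologicalSpace G)
    (_ : IsTopologicalGroup G) (_ : Group K) (_ : TopologicalSpace K) (_ : IsTopologicalGroup K)
    (_ : Group H) (_ : TopologicalSpace H) (_ : IsTopologicalGroup H) (f₁ : G →* K) (f₂ : K →* H),
    Continuous f₁ ∧ IsOpenMap f₁ ∧ Function.Surjective f₁ ∧
    Function.Injective f₂ ∧ IsSemitopological.{0} f₂ ∧
    ¬ IsSemitopological.{u} (f₂.comp f₁) := by
  refine ⟨G, K, K, inferInstance, ⊥, discrete_group G, inferInstance, ⊥, discrete_group K,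
    inferInstance, (centBasis K).topology,
    (centBasis K).isTopologicalGroup, rightHom, MonoidHom.id K, continuous_bot, ?_,
    rightHom_surjective, Function.injective_id, id_semitopological K, ?_⟩
  · intro U _
    exact trivial
  · rintro ⟨_, _, W, gW, tW, hW, ι, F, hinj, hnorm, hind, hcont, hopen, hext⟩
    let tK : TopologicalSpace K := (centBasis K).topology
    let tG : TopologicalSpace G := ⊥
    -- the neighbourhood of the identity fixing `n₀`
    obtain ⟨D, hD, hDn⟩ : ∃ D : Set W, IsOpen D ∧ ι ⁻¹' D = {inl n₀} :=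
      hind.isOpen_iff.mp (show IsOpen ({inl n₀} : Set G) from trivial)
    have hU : {w : W | w * ι (inl n₀) * w⁻¹ = ι (inl n₀)} ∈ 𝓝 (1 : W) := by
      have h1 : Continuous (fun w : W => w * ι (inl n₀) * w⁻¹) := by fun_prop
      have h2 : (fun w : W => w * ι (inl n₀) * w⁻¹) ⁻¹' D ∈ 𝓝 (1 : W) := by
        refine (hD.preimage h1).mem_nhds ?_
        have h3 : inl n₀ ∈ ι ⁻¹' D := by rw [hDn]; rfl
        simpa using h3
      refine Filter.mem_of_superset h2 fun w hw => ?_
      obtain ⟨g, hg⟩ := hnorm.conj_mem _ ⟨inl n₀, rfl⟩ w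
      have h4 : g ∈ ι ⁻¹' D := by
        change ι g ∈ D
        rw [hg]
        exact hw
      rw [hDn, Set.mem_singleton_iff] at h4
      change w * ι (inl n₀) * w⁻¹ = ι (inl n₀)
      rw [← hg, h4]
    have hFU : F '' {w : W | w * ι (inl n₀) * w⁻¹ = ι (inl n₀)} ∈ 𝓝 (1 : K) := by
      have := hopen.image_mem_nhds hU
      rwa [map_one] at this
    obtain ⟨_, ⟨S, hS, rfl⟩, hSU⟩ := (centBasis K).nhds_one_hasBasis.mem_iff.mp hFU
    -- conjugation by `w` acts on `N` as `F w`
    have key : ∀ w : W, ∀ n : N, w * ι (inl n) * w⁻¹ = ι (inl ((F w : MulAut N) n)) := by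
      intro w
      have hθ : ∀ n : N, ∃ m : N, w * ι (inl n) * w⁻¹ = ι (inl m) := by
        intro n
        obtain ⟨g, hg⟩ := hnorm.conj_mem _ ⟨inl n, rfl⟩ w
        have h5 : rightHom g = (1 : K) := by
          have h6 := hext g
          rw [hg, map_mul, map_mul, hext] at h6
          simp only [MonoidHom.comp_apply, MonoidHom.id_apply, rightHom_inl, mul_one,
            ← map_mul, mul_inv_cancel, map_one] at h6
          exact h6.symm
        have h7 : g ∈ (inl : N →* G).range := by
          rw [range_inl_eq_ker_rightHom]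
          exact h5
        obtain ⟨m, rfl⟩ := h7
        exact ⟨m, hg.symm⟩
      choose θ hθ using hθ
      have hθmul : ∀ a b, θ (a * b) = θ a * θ b := by
        intro a b
        apply inl_injective (φ := K.subtype)
        apply hinj
        rw [map_mul, map_mul, ← hθ, ← hθ, ← hθ, map_mul, map_mul]
        group
      have hθinj : Function.Injective θ := by
        intro a b hab
        apply inl_injective (φ := K.subtype)
        apply hinj
        have h8 : w * ι (inl a) * w⁻¹ = w * ι (inl b) * w⁻¹ := by rw [hθ, hθ, hab]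
        exact mul_left_cancel (mul_right_cancel h8)
      have hθk : ∀ k : K, ∀ n : N, θ ((k : MulAut N) n) =
          ((F w * k * (F w)⁻¹ : K) : MulAut N) (θ n) := by
        intro k n
        obtain ⟨g, hg⟩ := hnorm.conj_mem _ ⟨inr k, rfl⟩ w
        have h5 : rightHom g = F w * k * (F w)⁻¹ := by
          have h6 := hext g
          rw [hg, map_mul, map_mul, hext] at h6
          simp only [MonoidHom.comp_apply, MonoidHom.id_apply, rightHom_inr, map_inv] at h6
          exact h6.symm
        apply inl_injective (φ := K.subtype)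
        apply hinj
        rw [← hθ]
        have h9 : (inl ((k : MulAut N) n) : G) = inr k * inl n * inr k⁻¹ :=
          inl_aut (φ := K.subtype) k n
        rw [h9]
        have h10 : w * ι (inr k * inl n * inr k⁻¹) * w⁻¹ =
            (w * ι (inr k) * w⁻¹) * (w * ι (inl n) * w⁻¹) * (w * ι (inr k) * w⁻¹)⁻¹ := by
          rw [map_mul, map_mul, map_inv, map_inv]
          group
        rw [h10, ← hg, hθ, ← map_inv, ← map_mul, ← map_mul]
        congr 1
        have h11 : g = inl g.left * inr g.right := (inl_left_mul_inr_right g).symm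
        have h12 : g.right = F w * k * (F w)⁻¹ := h5
        rw [← h12]
        have h13 : (inl ((g.right : MulAut N) (θ n)) : G) = inr g.right * inl (θ n) * inr g.right⁻¹ :=
          inl_aut (φ := K.subtype) g.right (θ n)
        rw [h13]
        have h14 : (inl g.left : G) * (inr g.right * inl (θ n) * inr g.right⁻¹) =
            (inr g.right * inl (θ n) * inr g.right⁻¹) * inl g.left := by
          rw [← h13, ← map_mul, ← map_mul, mul_comm]
        calc g * inl (θ n) * g⁻¹ = inl g.left * (inr g.right * inl (θ n) * inr g.right⁻¹) *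
              (inl g.left)⁻¹ := by
              conv_lhs => rw [h11]
              rw [map_inv]
              group
          _ = inr g.right * inl (θ n) * inr g.right⁻¹ := by
              rw [h14]
              group
      intro n
      rw [hθ]
      congr 2
      have h15 := eq_id (fun n => ((F w)⁻¹ : K).1 (θ n)) (fun a b => by
          change ((F w)⁻¹ : K).1 (θ (a * b)) = _
          rw [hθmul, map_mul]) (fun a b hab => hθinj ((((F w)⁻¹ : K).1).injective hab))
        (fun i j m => by
          change ((F w)⁻¹ : K).1 (θ ((e i j : K).1 m)) = (e i j : K).1 (((F w)⁻¹ : K).1 (θ m))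
          rw [hθk, ← MulAut.mul_apply, ← MulAut.mul_apply, ← Subgroup.coe_mul, ← Subgroup.coe_mul]
          congr 2
          group) n
      have h16 : θ n = (F w).1 (((F w)⁻¹ : K).1 (θ n)) := by
        rw [← MulAut.mul_apply, ← Subgroup.coe_mul, mul_inv_cancel]
        rfl
      rw [h16]
      congr 1
    -- contradiction
    have hbd : ∃ M : ℕ, ∀ s ∈ S, ∀ i j, M ≤ i → M ≤ j → e i j * s = s * e i j := by
      choose f hf using exists_bound
      obtain ⟨M, hM⟩ := (hS.image f).bddAbove
      exact ⟨M, fun s hs i j hi hj => hf s i j ((hM ⟨s, hs, rfl⟩).trans hi)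
        ((hM ⟨s, hs, rfl⟩).trans hj)⟩
    obtain ⟨M, hM⟩ := hbd
    have h17 : e M (M + 1) ∈ F '' {w : W | w * ι (inl n₀) * w⁻¹ = ι (inl n₀)} :=
      hSU fun s hs => hM s hs M (M + 1) le_rfl (by omega)
    obtain ⟨w, hw, hwe⟩ := h17
    have h18 := key w n₀
    rw [hw, hwe] at h18
    have h19 : n₀ = E M (M + 1) n₀ := inl_injective (hinj h18)
    rw [E_apply (by omega)] at h19
    have h20 := congrFun h19 M
    rw [Pi.mul_apply, Pi.mulSingle_eq_same] at h20
    change (-1 : ℤˣ) = -1 * -1 at h20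
    exact absurd h20 (by decide)

end Pool.Agent.Results.MP_c09033_al.NotSemitop
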